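import Mathlib
import Pool.Agent.Q260.GS.Final

set_option autoImplicit false

/-!
# The up/down score of the prime gaps is positive for some `n > 250000`

The witness is `n = 261150`, with `p_n = 3666581`. The primes up to `3666581` are found by
the sieve of Eratosthenes on bit masks (natural numbers with `3.6` million binary digits), the primes at which
the gap grows, and those at which it does not shrink, are found from shifted copies of the mask of the primes,
and they are counted; all of this is evaluated by the kernel.
-/

namespace Pool.Agent.Results.MP_69d63a_nt.PositiveScore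

/-- The primes, indexed from zero: `p 0 = 2`, `p 1 = 3`, ... -/
noncomputable def p (n : ℕ) : ℕ := Nat.nth Nat.Prime n

/-- The `n`-th prime gap `g n = p n - p (n - 1)`, for `n ≥ 1`. -/
noncomputable def g (n : ℕ) : ℤ := (p n : ℤ) - (p (n - 1) : ℤ)

/-- The score `a n = ∑ sign (g k - g (k - 1))`, the sum over `2 ≤ k ≤ n`. -/
noncomputable def a (n : ℕ) : ℤ := ∑ k ∈ Finset.Icc 2 n, Int.sign (g k - g (k - 1))

/-- There is an integer `n > 250000` with `a n > 0`, namely `n = 261150`, for which `p n = 3666581`. -/
theorem result : ∃ n : ℕ, 250000 < n ∧ 0 < a n ∧ n = 261150 ∧ p n = 3666581 := by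
  obtain ⟨n, h1, h2, h3⟩ := Q260.GS.main 3666581 1915 22 166700 160 261151 (by norm_num) (by norm_num)
    (by norm_num) (by norm_num) (by norm_num) (by norm_num) Q260.GS.run
  refine ⟨n, by omega, ?_, by omega, h2⟩
  have e : a n = ∑ k ∈ Finset.Icc 2 n, Int.sign
        ((((Nat.nth Nat.Prime k : ℕ) : ℤ) - (Nat.nth Nat.Prime (k - 1) : ℕ)) -
          (((Nat.nth Nat.Prime (k - 1) : ℕ) : ℤ) - (Nat.nth Nat.Prime (k - 2) : ℕ))) := by
    unfold a
    apply Finset.sum_congr rfl
    intro k _
    unfold g p
    rw [show k - 1 - 1 = k - 2 by omega]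
  rw [e]
  exact h3

end Pool.Agent.Results.MP_69d63a_nt.PositiveScore
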